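import Mathlib

/-!
# Solvable quotients of surface groups can have infinite diameter

Let `P` be a free group of finite rank at least two or a closed orientable surface group of genus
at least two.  We construct a generating set `S` of `P` which contains a conjugate of every element
outside the commutator subgroup (in particular of every element represented by a nonseparating
simple closed curve, since such a curve has nonzero homology class), such that the quotient of `P`
by its second derived subgroup has infinite diameter with respect to `S`.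

The set `S` consists of the elements whose image in the wreath product of `ℤ` with `ℤ ^ r` has lamp
values of absolute value at most a constant.  The lamp values of an element `g` with nonzero
homology class `h` can be spread out along the lines in direction `h` by conjugating `g`, which is
why every such `g` has a conjugate in `S`.
-/

namespace Pool.Agent.Results.MP_4b02fd_al.BadGenerators

open scoped commutatorElement

/-- `W ι` is the unrestricted version of the wreath product of `ℤ` with `ℤ ^ ι`. -/
@[ext]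
structure W (ι : Type) where
  /-- the lamps -/
  f : (ι → ℤ) → ℤ
  /-- the position -/
  a : ι → ℤ

namespace W

variable {ι : Type}

instance : Mul (W ι) := ⟨fun x y => ⟨fun v => x.f v + y.f (v - x.a), x.a + y.a⟩⟩
instance : One (W ι) := ⟨⟨fun _ => 0, 0⟩⟩
instance : Inv (W ι) := ⟨fun x => ⟨fun v => - x.f (v + x.a), - x.a⟩⟩

@[simp] theorem mul_f (x y : W ι) (v : ι → ℤ) : (x * y).f v = x.f v + y.f (v - x.a) := rfl
@[simp] theorem mul_a (x y : W ι) : (x * y).a = x.a + y.a := rfl
@[simp] theorem one_f (v : ι → ℤ) : (1 : W ι).f v = 0 := rfl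
@[simp] theorem one_a : (1 : W ι).a = 0 := rfl
@[simp] theorem inv_f (x : W ι) (v : ι → ℤ) : (x⁻¹).f v = - x.f (v + x.a) := rfl
@[simp] theorem inv_a (x : W ι) : (x⁻¹).a = - x.a := rfl

instance : Group (W ι) where
  mul_assoc x y z := by
    refine W.ext ?_ ?_
    · funext v
      simp [add_assoc, sub_sub]
    · simp [add_assoc]
  one_mul x := by
    refine W.ext ?_ ?_
    · funext v; simp
    · simp
  mul_one x := by
    refine W.ext ?_ ?_
    · funext v; simp
    · simp
  inv_mul_cancel x := by
    refine W.ext ?_ ?_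
    · funext v; simp
    · simp

/-- the position homomorphism -/
def aHom : W ι →* Multiplicative (ι → ℤ) where
  toFun x := Multiplicative.ofAdd x.a
  map_one' := rfl
  map_mul' _ _ := rfl

theorem derived_two : derivedSeries (W ι) 2 = ⊥ := by
  have h1 : derivedSeries (W ι) 1 ≤ (aHom (ι := ι)).ker := by
    rw [derivedSeries_one]
    exact Abelianization.commutator_subset_ker _
  rw [derivedSeries_succ, eq_bot_iff, Subgroup.commutator_le]
  intro x hx y hy
  have hx' : x.a = 0 := h1 hx
  have hy' : y.a = 0 := h1 hy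
  rw [Subgroup.mem_bot, commutatorElement_eq_one_iff_mul_comm]
  refine W.ext ?_ ?_
  · funext v
    simp [hx', hy', add_comm]
  · simp [hx', hy']

end W

section general

variable {ι : Type} {P : Type} [Group P]

/-- bounded with bounded support -/
def Bd (f : (ι → ℤ) → ℤ) : Prop :=
  ∃ B : ℤ, ∀ v, |f v| ≤ B ∧ (f v ≠ 0 → ∀ i, |v i| ≤ B)

theorem bd_all [Fintype ι] (φ : P →* W ι) (x : ι → P) (h1 : Subgroup.closure (Set.range x) = ⊤)
    (h3 : ∀ i, Bd (φ (x i)).f) (g : P) : Bd (φ g).f := by
  have hshift : ∀ (f : (ι → ℤ) → ℤ) (c : ι → ℤ), Bd f → Bd (fun v => f (v + c)) := by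
    rintro f c ⟨B, hB⟩
    refine ⟨B + ∑ i, |c i|, fun v => ⟨?_, ?_⟩⟩
    · exact (hB _).1.trans (by
        have : 0 ≤ ∑ i, |c i| := Finset.sum_nonneg fun i _ => abs_nonneg _
        linarith)
    · intro hv i
      have h := (hB (v + c)).2 hv i
      have h' : |c i| ≤ ∑ i, |c i| :=
        Finset.single_le_sum (f := fun i => |c i|) (fun i _ => abs_nonneg _) (Finset.mem_univ i)
      have h'' : v i = (v + c) i - c i := by simp
      rw [h'']
      exact (abs_sub _ _).trans (add_le_add h h')
  have hneg : ∀ (f : (ι → ℤ) → ℤ), Bd f → Bd (fun v => - f v) := by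
    rintro f ⟨B, hB⟩
    exact ⟨B, fun v => ⟨by rw [abs_neg]; exact (hB v).1, fun hv => (hB v).2 (by
      intro h; apply hv; simp [h])⟩⟩
  have hadd : ∀ (f g : (ι → ℤ) → ℤ), Bd f → Bd g → Bd (fun v => f v + g v) := by
    rintro f g ⟨B, hB⟩ ⟨C, hC⟩
    have hB0 : 0 ≤ B := (abs_nonneg _).trans (hB 0).1
    have hC0 : 0 ≤ C := (abs_nonneg _).trans (hC 0).1
    refine ⟨B + C, fun v => ⟨(abs_add_le _ _).trans (add_le_add (hB v).1 (hC v).1), ?_⟩⟩
    intro hv i
    by_cases hf : f v = 0
    · have hg : g v ≠ 0 := by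
        intro h
        apply hv
        simp [hf, h]
      exact ((hC v).2 hg i).trans (by linarith)
    · exact ((hB v).2 hf i).trans (by linarith)
  have hg : g ∈ Subgroup.closure (Set.range x) := by rw [h1]; exact Subgroup.mem_top g
  induction hg using Subgroup.closure_induction with
  | mem g hg =>
    obtain ⟨i, rfl⟩ := hg
    exact h3 i
  | one =>
    rw [map_one]
    exact ⟨0, fun v => ⟨by simp, fun h => absurd rfl h⟩⟩
  | mul g h _ _ ihg ihh =>
    rw [map_mul]
    exact hadd _ _ ihg (by
      have := hshift _ (-(φ g).a) ihh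
      simpa [sub_eq_add_neg] using this)
  | inv g _ ih =>
    rw [map_inv]
    exact hneg _ (hshift _ _ ih)

/-- The property used for spreading out. -/
def Good (φ : P →* W ι) (h : ι → ℤ) (lam : (ι → ℤ) →+ ℤ) (C : ℤ) (f : (ι → ℤ) → ℤ) : Prop :=
  ∀ N : ℤ, ∃ N' : ℤ, N ≤ N' ∧ ∃ u : P, (φ u).a = 0 ∧ ∀ v,
    |f v + (φ u).f v - (φ u).f (v - h)| ≤ C ∧
      (f v + (φ u).f v - (φ u).f (v - h) ≠ 0 → N < lam v ∧ lam v ≤ N')

variable {φ : P →* W ι} {h : ι → ℤ} {lam : (ι → ℤ) →+ ℤ} {C : ℤ}

theorem good_zero (hC : 0 ≤ C) : Good φ h lam C (fun _ => 0) := by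
  intro N
  refine ⟨N, le_rfl, 1, by simp, fun v => ⟨by simpa using hC, ?_⟩⟩
  intro hv
  exfalso
  apply hv
  simp

theorem good_add {f g : (ι → ℤ) → ℤ} (hf : Good φ h lam C f) (hg : Good φ h lam C g) :
    Good φ h lam C (fun v => f v + g v) := by
  intro N
  obtain ⟨N', hN', u, hu, hu'⟩ := hf N
  obtain ⟨N'', hN'', w, hw, hw'⟩ := hg N'
  refine ⟨N'', hN'.trans hN'', u * w, by simp [hu, hw], fun v => ?_⟩
  have e : (fun v => f v + g v) v + (φ (u * w)).f v - (φ (u * w)).f (v - h) =
      (f v + (φ u).f v - (φ u).f (v - h)) + (g v + (φ w).f v - (φ w).f (v - h)) := by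
    simp only [map_mul, W.mul_f, hu, sub_zero]
    ring
  rw [e]
  by_cases hv : lam v ≤ N'
  · have h0 : g v + (φ w).f v - (φ w).f (v - h) = 0 := by
      by_contra hne
      exact absurd ((hw' v).2 hne).1 (not_lt.2 hv)
    rw [h0, add_zero]
    exact ⟨(hu' v).1, fun hne => ⟨((hu' v).2 hne).1, ((hu' v).2 hne).2.trans hN''⟩⟩
  · have h0 : f v + (φ u).f v - (φ u).f (v - h) = 0 := by
      by_contra hne
      exact hv ((hu' v).2 hne).2
    rw [h0, zero_add]
    exact ⟨(hw' v).1, fun hne => ⟨hN'.trans_lt ((hw' v).2 hne).1, ((hw' v).2 hne).2⟩⟩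

theorem good_neg {f : (ι → ℤ) → ℤ} (hf : Good φ h lam C f) :
    Good φ h lam C (fun v => - f v) := by
  intro N
  obtain ⟨N', hN', u, hu, hu'⟩ := hf N
  refine ⟨N', hN', u⁻¹, by simp [hu], fun v => ?_⟩
  have e : (fun v => - f v) v + (φ u⁻¹).f v - (φ u⁻¹).f (v - h) =
      - (f v + (φ u).f v - (φ u).f (v - h)) := by
    simp only [map_inv, W.inv_f, hu, add_zero]
    ring
  rw [e, abs_neg]
  exact ⟨(hu' v).1, fun hne => (hu' v).2 (neg_ne_zero.1 hne)⟩

theorem good_shift {f : (ι → ℤ) → ℤ} (hf : Good φ h lam C f) (x : P) :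
    Good φ h lam C (fun v => f (v - (φ x).a)) := by
  intro N
  obtain ⟨N', hN', u, hu, hu'⟩ := hf (N - lam (φ x).a)
  refine ⟨N' + lam (φ x).a, by linarith, x * u * x⁻¹, by simp [hu], fun v => ?_⟩
  have hU : ∀ v, (φ (x * u * x⁻¹)).f v = (φ u).f (v - (φ x).a) := by
    intro v
    simp only [map_mul, map_inv, W.mul_f, W.inv_f, W.mul_a, hu, add_zero]
    rw [sub_add_cancel]
    ring
  have e : (fun v => f (v - (φ x).a)) v + (φ (x * u * x⁻¹)).f v - (φ (x * u * x⁻¹)).f (v - h) =
      f (v - (φ x).a) + (φ u).f (v - (φ x).a) - (φ u).f (v - (φ x).a - h) := by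
    rw [hU, hU, sub_right_comm]
  rw [e]
  refine ⟨(hu' _).1, fun hne => ?_⟩
  have := (hu' _).2 hne
  rw [map_sub] at this
  exact ⟨by linarith [this.1], by linarith [this.2]⟩

theorem good_base (hlam : 1 ≤ lam h) (g : P) (hg : (φ g).a = h) (m : P) (hm : (φ m).a = 0)
    (B : ℤ) (hB : ∀ v, (φ m).f v ≠ 0 → |lam v| ≤ B) (hC : ∀ v, |(φ m).f v| ≤ C) :
    Good φ h lam C (φ m).f := by
  have tele : ∀ n : ℕ, ∃ u : P, (φ u).a = 0 ∧ ∀ v,
      (φ m).f v + (φ u).f v - (φ u).f (v - h) = (φ m).f (v - n • h) := by
    intro n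
    induction n with
    | zero => exact ⟨1, by simp, fun v => by simp⟩
    | succ n ih =>
      obtain ⟨u, hu, hu'⟩ := ih
      have hgn : (φ (g ^ n)).a = n • h := by
        clear hu hu'
        induction n with
        | zero => simp
        | succ n ih2 => rw [pow_succ, map_mul, W.mul_a, ih2, hg, succ_nsmul]
      have hc : ∀ v, (φ (g ^ n * m⁻¹ * (g ^ n)⁻¹)).f v = - (φ m).f (v - n • h) := by
        intro v
        rw [map_mul, map_mul, map_inv, map_inv]
        simp only [W.mul_f, W.inv_f, W.mul_a, W.inv_a, hm, neg_zero, add_zero, hgn,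
          sub_add_cancel]
        ring
      refine ⟨u * (g ^ n * m⁻¹ * (g ^ n)⁻¹), ?_, fun v => ?_⟩
      · rw [map_mul, W.mul_a, hu, zero_add, map_mul, map_mul, W.mul_a, W.mul_a, map_inv, map_inv,
          W.inv_a, W.inv_a, hm]
        simp
      · rw [map_mul, W.mul_f, W.mul_f, hu, sub_zero, sub_zero, hc, hc]
        have := hu' v
        have e : v - h - n • h = v - (n + 1) • h := by
          rw [succ_nsmul]; abel
        rw [e]
        linarith
  intro N
  obtain ⟨n, hn⟩ : ∃ n : ℕ, N + B < n := ⟨(N + B + 1).toNat, by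
    have := Int.self_le_toNat (N + B + 1)
    linarith⟩
  obtain ⟨u, hu, hu'⟩ := tele n
  refine ⟨max N (B + n * lam h), le_max_left _ _, u, hu, fun v => ?_⟩
  rw [hu']
  refine ⟨hC _, fun hne => ?_⟩
  have h1 := hB _ hne
  rw [map_sub, map_nsmul, abs_le, nsmul_eq_mul] at h1
  have h2 : (n : ℤ) ≤ n * lam h := by nlinarith [Int.natCast_nonneg n]
  exact ⟨by linarith [h1.1], le_max_of_le_right (by linarith [h1.2])⟩

/-- uniform bound on the powers of a generator -/
theorem pow_bound [DecidableEq ι] (φ : P →* W ι) (x : P) (i : ι)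
    (hx : (φ x).a = Pi.single i 1) (hb : Bd (φ x).f) :
    ∃ D : ℤ, ∀ (n : ℤ) (v : ι → ℤ), |(φ (x ^ n)).f v| ≤ D := by
  obtain ⟨B, hB⟩ := hb
  have hB0 : 0 ≤ B := (abs_nonneg _).trans (hB 0).1
  have hpa : ∀ n : ℕ, (φ (x ^ n)).a = n • Pi.single i (1 : ℤ) := by
    intro n
    induction n with
    | zero => simp
    | succ n ih => rw [pow_succ, map_mul, W.mul_a, ih, hx, succ_nsmul]
  have key : ∀ (n : ℕ) (v : ι → ℤ), (φ (x ^ n)).f v =
      ∑ k ∈ Finset.range n, (φ x).f (v - k • Pi.single i (1 : ℤ)) := by
    intro n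
    induction n with
    | zero => intro v; simp
    | succ n ih =>
      intro v
      rw [pow_succ, map_mul, W.mul_f, ih, hpa, Finset.sum_range_succ]
  have nat : ∀ (n : ℕ) (v : ι → ℤ), |(φ (x ^ n)).f v| ≤ (2 * B + 1) * B := by
    intro n v
    rw [key]
    have hcard : (((Finset.range n).filter (fun k : ℕ => |v i - k| ≤ B)).card : ℤ) ≤ 2 * B + 1 := by
      have h1 : ((Finset.range n).filter (fun k : ℕ => |v i - k| ≤ B)).card ≤
          (Finset.Icc (v i - B) (v i + B)).card := by
        refine Finset.card_le_card_of_injOn (fun k : ℕ => (k : ℤ)) ?_ ?_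
        · intro k hk
          have hk' := (Finset.mem_filter.1 (Finset.mem_coe.1 hk)).2
          rw [abs_le] at hk'
          refine Finset.mem_coe.2 (Finset.mem_Icc.2 ⟨?_, ?_⟩)
          · linarith [hk'.2]
          · linarith [hk'.1]
        · intro a _ b _ hab
          exact Int.natCast_inj.1 hab
      rw [Int.card_Icc] at h1
      have h2 : ((v i + B + 1 - (v i - B)).toNat : ℤ) = 2 * B + 1 := by
        rw [Int.toNat_of_nonneg (by linarith)]
        ring
      have h3 : (((Finset.range n).filter (fun k : ℕ => |v i - k| ≤ B)).card : ℤ) ≤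
          ((v i + B + 1 - (v i - B)).toNat : ℤ) := by exact_mod_cast h1
      linarith
    have hF : ∀ k : ℕ, |(φ x).f (v - k • Pi.single i (1 : ℤ))| ≤ if |v i - k| ≤ B then B else 0 := by
      intro k
      split_ifs with hk
      · exact (hB _).1
      · have : (φ x).f (v - k • Pi.single i (1 : ℤ)) = 0 := by
          by_contra hne
          apply hk
          have := (hB _).2 hne i
          simpa using this
        rw [this, abs_zero]
    refine (Finset.abs_sum_le_sum_abs _ _).trans ((Finset.sum_le_sum fun k _ => hF k).trans ?_)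
    rw [← Finset.sum_filter, Finset.sum_const, nsmul_eq_mul]
    exact mul_le_mul_of_nonneg_right hcard hB0
  refine ⟨(2 * B + 1) * B, fun n v => ?_⟩
  obtain ⟨k, rfl | rfl⟩ := n.eq_nat_or_neg
  · rw [zpow_natCast]
    exact nat k v
  · rw [zpow_neg, zpow_natCast, map_inv, W.inv_f, abs_neg]
    exact nat k _

/-- The property of a group `P` proved below for free groups and surface groups: some generating
set `S` of `P` contains a conjugate of every element outside the commutator subgroup, and the
quotient of `P` by its second derived subgroup has infinite diameter with respect to `S`. -/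
def InfDiam (P : Type) [Group P] : Prop :=
  ∃ S : Set P, Subgroup.closure S = ⊤ ∧ (∀ g : P, g ∉ commutator P → ∃ s ∈ S, IsConj g s) ∧
    ∀ k : ℕ, ∃ g : P, ∀ l : List P, l.length ≤ k → (∀ s ∈ l, s ∈ S ∨ s⁻¹ ∈ S) →
      (QuotientGroup.mk l.prod : P ⧸ derivedSeries P 2) ≠ QuotientGroup.mk g

theorem general [Fintype ι] [DecidableEq ι] (φ : P →* W ι) (x : ι → P)
    (h1 : Subgroup.closure (Set.range x) = ⊤) (h2 : ∀ i, (φ (x i)).a = Pi.single i 1)
    (h3 : ∀ i, Bd (φ (x i)).f) (h5 : ∃ m : P, (φ m).a = 0 ∧ (φ m).f ≠ fun _ => 0) :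
    InfDiam P := by
  classical
  -- bounds
  have hbd := bd_all φ x h1 h3
  choose D hD using fun i => pow_bound φ (x i) i (h2 i) (h3 i)
  choose E hE using hbd
  have hE0 : ∀ g, 0 ≤ E g := fun g => (abs_nonneg _).trans (hE g 0).1
  have hD0 : ∀ i, 0 ≤ D i := fun i => (abs_nonneg _).trans (hD i 0 0)
  let C : ℤ := ∑ i, ∑ j, E (⁅x i, x j⁆)
  have hC0 : 0 ≤ C := Finset.sum_nonneg fun i _ => Finset.sum_nonneg fun j _ => hE0 _
  have hCij : ∀ i j, E (⁅x i, x j⁆) ≤ C := by
    intro i j
    refine (Finset.single_le_sum (f := fun j => E (⁅x i, x j⁆)) (fun j _ => hE0 _)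
      (Finset.mem_univ j)).trans ?_
    exact Finset.single_le_sum (f := fun i => ∑ j, E (⁅x i, x j⁆))
      (fun i _ => Finset.sum_nonneg fun j _ => hE0 _) (Finset.mem_univ i)
  let D' : ℤ := ∑ i, D i
  have hD'0 : 0 ≤ D' := Finset.sum_nonneg fun i _ => hD0 i
  -- the standard words
  let w : (ι → ℤ) → P := fun h => ((Finset.univ : Finset ι).toList.map (fun i => x i ^ h i)).prod
  have hwf : ∀ (h : ι → ℤ) (v : ι → ℤ), |(φ (w h)).f v| ≤ D' := by
    intro h
    have gen : ∀ (l : List ι) (v : ι → ℤ),
        |(φ (l.map (fun i => x i ^ h i)).prod).f v| ≤ (l.map D).sum := by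
      intro l
      induction l with
      | nil => intro v; simp
      | cons a l ih =>
        intro v
        rw [List.map_cons, List.prod_cons, map_mul, W.mul_f, List.map_cons, List.sum_cons]
        exact (abs_add_le _ _).trans (add_le_add (hD a _ _) (ih _))
    intro v
    refine (gen _ v).trans (le_of_eq ?_)
    exact Finset.sum_map_toList _ _
  -- the abelianization
  have hab : ∀ g : P, Abelianization.of g = Abelianization.of (w (φ g).a) := by
    have hw : ∀ h : ι → ℤ, Abelianization.of (w h) = ∏ i, (Abelianization.of (x i)) ^ h i := by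
      intro h
      simp only [w]
      rw [map_list_prod, List.map_map]
      rw [← Finset.prod_map_toList]
      congr 1
    let ψ : P →* Abelianization P :=
      { toFun := fun g => ∏ i, (Abelianization.of (x i)) ^ ((φ g).a i)
        map_one' := by simp
        map_mul' := by
          intro g g'
          simp [zpow_add, Finset.prod_mul_distrib] }
    have hψ : Abelianization.of = ψ := by
      refine MonoidHom.eq_of_eqOn_dense h1 ?_
      rintro _ ⟨j, rfl⟩
      change _ = ∏ i, (Abelianization.of (x i)) ^ ((φ (x j)).a i)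
      rw [h2, Finset.prod_eq_single j]
      · simp
      · intro i _ hij
        rw [Pi.single_eq_of_ne hij, zpow_zero]
      · intro h
        exact absurd (Finset.mem_univ j) h
    intro g
    rw [hw]
    exact DFunLike.congr_fun hψ g
  have hcomm : ∀ g : P, (w (φ g).a)⁻¹ * g ∈ commutator P := by
    intro g
    have := hab g
    rw [← Abelianization.ker_of, MonoidHom.mem_ker, map_mul, map_inv, ← this, inv_mul_cancel]
  have hwa : ∀ g : P, (φ (w (φ g).a)).a = (φ g).a := by
    intro g
    have hle : commutator P ≤ ((W.aHom (ι := ι)).comp φ).ker :=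
      Abelianization.commutator_subset_ker _
    have h4 := hle (hcomm g)
    rw [MonoidHom.mem_ker, MonoidHom.comp_apply, map_mul, map_inv, map_mul, map_inv] at h4
    have h5 := inv_mul_eq_one.1 h4
    exact congrArg Multiplicative.toAdd h5
  -- the main estimate
  have main : ∀ g : P, (φ g).a ≠ 0 → ∃ u : P, ∀ v, |(φ (u * g * u⁻¹)).f v| ≤ D' + C := by
    intro g hg
    set h := (φ g).a with hh
    obtain ⟨i, hi⟩ : ∃ i, h i ≠ 0 := by
      by_contra hcon
      push Not at hcon
      exact hg (funext hcon)
    let lam : (ι → ℤ) →+ ℤ :=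
      { toFun := fun v => Int.sign (h i) * v i
        map_zero' := by simp
        map_add' := by intro a b; simp [mul_add] }
    have hlam : 1 ≤ lam h := by
      change 1 ≤ Int.sign (h i) * h i
      rw [Int.sign_mul_self_eq_abs]
      exact Int.one_le_abs hi
    have hlamle : ∀ v, |lam v| ≤ |v i| := by
      intro v
      change |Int.sign (h i) * v i| ≤ |v i|
      rw [abs_mul]
      have : |Int.sign (h i)| = 1 := by
        rcases lt_or_gt_of_ne hi with h' | h'
        · rw [Int.sign_eq_neg_one_of_neg h']; rfl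
        · rw [Int.sign_eq_one_of_pos h']; rfl
      rw [this, one_mul]
    let K : Subgroup P :=
      { carrier := {m | (φ m).a = 0 ∧ Good φ h lam C (φ m).f}
        one_mem' := by
          refine ⟨by simp, ?_⟩
          have h0 := good_zero (φ := φ) (h := h) (lam := lam) hC0
          rw [map_one]
          exact h0
        mul_mem' := by
          rintro a b ⟨ha, ha'⟩ ⟨hb, hb'⟩
          refine ⟨by simp [ha, hb], ?_⟩
          have e : (φ (a * b)).f = fun v => (φ a).f v + (φ b).f v := by
            funext v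
            simp [ha]
          rw [e]
          exact good_add ha' hb'
        inv_mem' := by
          rintro a ⟨ha, ha'⟩
          refine ⟨by simp [ha], ?_⟩
          have e : (φ a⁻¹).f = fun v => - (φ a).f v := by
            funext v
            simp [ha]
          rw [e]
          exact good_neg ha' }
    have hKn : K.Normal := by
      refine ⟨fun m hm y => ?_⟩
      obtain ⟨hm1, hm2⟩ := hm
      refine ⟨by simp [hm1], ?_⟩
      have e : (φ (y * m * y⁻¹)).f = fun v => (φ m).f (v - (φ y).a) := by
        funext v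
        simp only [map_mul, map_inv, W.mul_f, W.inv_f, W.mul_a, hm1, add_zero]
        rw [sub_add_cancel]
        ring
      rw [e]
      exact good_shift hm2 y
    have hKx : ∀ i j, ⁅x i, x j⁆ ∈ K := by
      intro i' j'
      have ha : (φ ⁅x i', x j'⁆).a = 0 := by
        simp [commutatorElement_def]
      refine ⟨ha, good_base hlam g hh.symm _ ha (E ⁅x i', x j'⁆) ?_ ?_⟩
      · intro v hv
        exact (hlamle v).trans ((hE _ v).2 hv i)
      · intro v
        exact (hE _ v).1.trans (hCij _ _)
    have hKc : commutator P ≤ K := by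
      have : ∀ a b : P ⧸ K, a * b = b * a := by
        have hgen : Subgroup.closure (Set.range fun i => (QuotientGroup.mk' K) (x i)) = ⊤ := by
          have h6 : (Set.range fun i => (QuotientGroup.mk' K) (x i)) =
              (QuotientGroup.mk' K) '' Set.range x := by
            rw [← Set.range_comp]
            rfl
          rw [h6, ← MonoidHom.map_closure, h1, ← MonoidHom.range_eq_map,
            MonoidHom.range_eq_top.2 (QuotientGroup.mk'_surjective K)]
        have hxx : ∀ i j, (QuotientGroup.mk' K) (x i) * (QuotientGroup.mk' K) (x j) =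
            (QuotientGroup.mk' K) (x j) * (QuotientGroup.mk' K) (x i) := by
          intro i j
          rw [← commutatorElement_eq_one_iff_mul_comm, ← map_commutatorElement]
          exact (QuotientGroup.eq_one_iff _).2 (hKx i j)
        intro a b
        have ha : a ∈ Subgroup.closure (Set.range fun i => (QuotientGroup.mk' K) (x i)) := by
          rw [hgen]; exact Subgroup.mem_top a
        have hb : b ∈ Subgroup.closure (Set.range fun i => (QuotientGroup.mk' K) (x i)) := by
          rw [hgen]; exact Subgroup.mem_top b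
        have hle : Subgroup.closure (Set.range fun i => (QuotientGroup.mk' K) (x i)) ≤
            Subgroup.centralizer (Set.range fun i => (QuotientGroup.mk' K) (x i)) := by
          rw [Subgroup.closure_le]
          rintro _ ⟨i, rfl⟩
          rw [SetLike.mem_coe, Subgroup.mem_centralizer_iff]
          rintro _ ⟨j, rfl⟩
          exact hxx j i
        have hle2 : Subgroup.closure (Set.range fun i => (QuotientGroup.mk' K) (x i)) ≤
            Subgroup.centralizer {a} := by
          rw [Subgroup.closure_le]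
          rintro _ ⟨i, rfl⟩
          rw [SetLike.mem_coe, Subgroup.mem_centralizer_iff]
          intro a' ha'
          rw [Set.mem_singleton_iff.1 ha']
          exact (Subgroup.mem_centralizer_iff.1 (hle ha) _ ⟨i, rfl⟩).symm
        exact Subgroup.mem_centralizer_iff.1 (hle2 hb) a rfl
      rw [commutator_def, Subgroup.commutator_le]
      intro a _ b _
      have h7 := this (QuotientGroup.mk' K a) (QuotientGroup.mk' K b)
      rw [← commutatorElement_eq_one_iff_mul_comm, ← map_commutatorElement] at h7
      exact (QuotientGroup.eq_one_iff _).1 h7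
    have hm := hKc (hcomm g)
    rw [← hh] at hm
    have hm2 := good_shift hm.2 g
    obtain ⟨N', -, u, hu, hu'⟩ := hm2 0
    refine ⟨u, fun v => ?_⟩
    have e : (φ (u * g * u⁻¹)).f v = (φ (w h)).f v +
        ((φ ((w h)⁻¹ * g)).f (v - (φ g).a) + (φ u).f v - (φ u).f (v - h)) := by
      have e1 : (φ g).f v = (φ (w h)).f v + (φ ((w h)⁻¹ * g)).f (v - h) := by
        have e2 : φ g = φ (w h) * φ ((w h)⁻¹ * g) := by
          rw [← map_mul, mul_inv_cancel_left]
        have e3 : (φ (w h)).a = h := hwa g
        conv_lhs => rw [e2, W.mul_f, e3]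
      rw [map_mul, map_mul, map_inv, W.mul_f, W.mul_f, W.mul_a, W.inv_f, hu, sub_zero, zero_add,
        add_zero, ← hh, e1]
      ring
    rw [e]
    exact (abs_add_le _ _).trans (add_le_add (hwf _ _) (hu' v).1)
  -- the generating set
  let T : ℤ := D' + C + ∑ i, E (x i)
  have hT : D' + C ≤ T := by
    have : 0 ≤ ∑ i, E (x i) := Finset.sum_nonneg fun i _ => hE0 _
    linarith
  have hTx : ∀ i, E (x i) ≤ T := by
    intro i
    have := Finset.single_le_sum (f := fun i => E (x i)) (fun i _ => hE0 _) (Finset.mem_univ i)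
    have h' : E (x i) ≤ ∑ i, E (x i) := this
    linarith
  have hT0 : 0 ≤ T := (by linarith : (0 : ℤ) ≤ D' + C).trans hT
  refine ⟨{s | ∀ v, |(φ s).f v| ≤ T}, ?_, ?_, ?_⟩
  · rw [eq_top_iff, ← h1, Subgroup.closure_le]
    rintro _ ⟨i, rfl⟩
    refine Subgroup.subset_closure ?_
    intro v
    exact (hE _ v).1.trans (hTx i)
  · intro g hg
    have hne : (φ g).a ≠ 0 := by
      intro h0
      apply hg
      have := hcomm g
      rw [h0] at this
      have hw0 : w 0 = 1 := by
        simp only [w, Pi.zero_apply, zpow_zero]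
        rw [List.prod_eq_one]
        intro y hy
        obtain ⟨i, -, rfl⟩ := List.mem_map.1 hy
        rfl
      rw [hw0] at this
      simpa using this
    obtain ⟨u, hu⟩ := main g hne
    refine ⟨u * g * u⁻¹, fun v => (hu v).trans hT, ?_⟩
    exact isConj_iff.2 ⟨u, rfl⟩
  · intro k
    obtain ⟨m, hm, hm'⟩ := h5
    obtain ⟨v0, hv0⟩ : ∃ v, (φ m).f v ≠ 0 := by
      by_contra hcon
      push Not at hcon
      exact hm' (funext hcon)
    obtain ⟨n, hn⟩ : ∃ n : ℕ, (k : ℤ) * T < n := ⟨((k : ℤ) * T + 1).toNat, by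
      have := Int.self_le_toNat ((k : ℤ) * T + 1)
      linarith⟩
    have hpow : ∀ n : ℕ, (φ (m ^ n)).a = 0 ∧ ∀ v, (φ (m ^ n)).f v = n * (φ m).f v := by
      intro n
      induction n with
      | zero => simp
      | succ n ih =>
        refine ⟨by rw [pow_succ, map_mul, W.mul_a, ih.1, hm, add_zero], fun v => ?_⟩
        rw [pow_succ, map_mul, W.mul_f, ih.1, ih.2, sub_zero]
        push_cast
        ring
    refine ⟨m ^ n, fun l hl hlS heq => ?_⟩
    have hprod : ∀ l : List P, (∀ s ∈ l, s ∈ {s : P | ∀ v, |(φ s).f v| ≤ T} ∨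
        s⁻¹ ∈ {s : P | ∀ v, |(φ s).f v| ≤ T}) → ∀ v, |(φ l.prod).f v| ≤ l.length * T := by
      intro l
      induction l with
      | nil => intro _ v; simp
      | cons a l ih =>
        intro hS v
        rw [List.prod_cons, map_mul, W.mul_f]
        have ha : ∀ v, |(φ a).f v| ≤ T := by
          rcases hS a (List.mem_cons_self ..) with h' | h'
          · exact h'
          · intro v
            have := h' (v - (φ a).a)
            rw [map_inv, W.inv_f, sub_add_cancel, abs_neg] at this
            exact this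
        have hl' := ih (fun s hs => hS s (List.mem_cons_of_mem _ hs)) (v - (φ a).a)
        refine (abs_add_le _ _).trans ((add_le_add (ha v) hl').trans (le_of_eq ?_))
        rw [List.length_cons]
        push_cast
        ring
    have hle := hprod l hlS v0
    have hker : derivedSeries P 2 ≤ φ.ker := by
      have h7 : (derivedSeries P 2).map φ ≤ derivedSeries (W ι) 2 := map_derivedSeries_le_derivedSeries φ 2
      rw [W.derived_two] at h7
      intro y hy
      have := h7 (Subgroup.mem_map_of_mem φ hy)
      exact this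
    have h8 : l.prod⁻¹ * m ^ n ∈ derivedSeries P 2 := QuotientGroup.eq.1 heq
    have h9 : φ l.prod = φ (m ^ n) := by
      have := hker h8
      rw [MonoidHom.mem_ker, map_mul, map_inv, inv_mul_eq_one] at this
      exact this
    rw [h9, (hpow n).2, abs_mul] at hle
    have h10 : (1 : ℤ) ≤ |(φ m).f v0| := Int.one_le_abs hv0
    have h11 : (l.length : ℤ) * T ≤ k * T :=
      mul_le_mul_of_nonneg_right (by exact_mod_cast hl) hT0
    have h12 : (n : ℤ) ≤ |(n : ℤ)| * |(φ m).f v0| := by
      rw [abs_of_nonneg (Int.natCast_nonneg n)]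
      nlinarith [Int.natCast_nonneg n]
    linarith

theorem comm_f (x y : W ι) (hy : y.f = fun _ => 0) :
    (⁅x, y⁆).a = 0 ∧ ∀ v, (⁅x, y⁆).f v = x.f v - x.f (v - y.a) := by
  constructor
  · simp [commutatorElement_def]
  · intro v
    simp only [commutatorElement_def, W.mul_f, W.mul_a, W.inv_f, W.inv_a, hy]
    have e : v - (x.a + y.a) + x.a = v - y.a := by abel
    rw [e]
    ring

theorem bd_delta2 [Fintype ι] [DecidableEq ι] (i : ι) (s : ℤ) (hs : |s| = 1) :
    Bd (fun v : ι → ℤ => s * ((if v = 0 then 1 else 0) - (if v = Pi.single i 1 then 1 else 0))) := by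
  refine ⟨2, fun v => ⟨?_, ?_⟩⟩
  · rw [abs_mul, hs, one_mul]
    split_ifs <;> norm_num
  · intro hv j
    by_cases h0 : v = 0
    · rw [h0]; simp
    · by_cases h1 : v = Pi.single i 1
      · rw [h1]
        by_cases hij : j = i
        · rw [hij, Pi.single_eq_same]; norm_num
        · rw [Pi.single_eq_of_ne hij]; norm_num
      · exfalso
        apply hv
        simp [h0, h1]

theorem bd_zero : Bd (fun _ : ι → ℤ => 0) := ⟨0, fun v => ⟨by simp, fun h => absurd rfl h⟩⟩

theorem bd_delta [Fintype ι] [DecidableEq ι] : Bd (fun v : ι → ℤ => if v = 0 then 1 else 0) := by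
  refine ⟨1, fun v => ⟨?_, ?_⟩⟩
  · change |if v = 0 then (1 : ℤ) else 0| ≤ 1
    split_ifs <;> norm_num
  · intro hv j
    by_cases h0 : v = 0
    · rw [h0]; simp
    · exfalso
      apply hv
      simp [h0]

end general

/-- Free groups of finite rank at least two. -/
theorem free_case (r : ℕ) (hr : 2 ≤ r) : InfDiam (FreeGroup (Fin r)) := by
  let i0 : Fin r := ⟨0, by omega⟩
  let i1 : Fin r := ⟨1, by omega⟩
  have h01 : i0 ≠ i1 := by
    intro h
    exact absurd (congrArg Fin.val h) (by norm_num [i0, i1])
  let F : Fin r → W (Fin r) := fun i =>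
    ⟨if i = i0 then (fun v => if v = 0 then 1 else 0) else (fun _ => 0), Pi.single i 1⟩
  have hFf : ∀ i, (F i).f = if i = i0 then (fun v => if v = 0 then 1 else 0) else (fun _ => 0) :=
    fun i => rfl
  have hF0 : (F i0).f = fun v => if v = 0 then 1 else 0 := by
    rw [hFf, if_pos rfl]
  have hF1 : (F i1).f = fun _ => 0 := by
    rw [hFf, if_neg h01.symm]
  refine general (FreeGroup.lift F) FreeGroup.of (FreeGroup.closure_range_of _) ?_ ?_ ?_
  · intro i
    rw [FreeGroup.lift_apply_of]
  · intro i
    rw [FreeGroup.lift_apply_of]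
    by_cases h : i = i0
    · have : (F i).f = fun v => if v = 0 then 1 else 0 := if_pos h
      rw [this]
      exact bd_delta
    · have : (F i).f = fun _ => 0 := if_neg h
      rw [this]
      exact bd_zero
  · refine ⟨⁅FreeGroup.of i0, FreeGroup.of i1⁆, ?_⟩
    rw [map_commutatorElement, FreeGroup.lift_apply_of, FreeGroup.lift_apply_of]
    obtain ⟨h1, h2⟩ := comm_f (F i0) (F i1) hF1
    refine ⟨h1, fun h => ?_⟩
    have h3 := h2 0
    rw [h, hF0] at h3
    have h4 : (F i1).a = Pi.single i1 1 := rfl
    have h5 : (0 : Fin r → ℤ) - (F i1).a ≠ 0 := by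
      rw [h4, zero_sub, neg_ne_zero]
      intro h6
      have := congrFun h6 i1
      simp at this
    simp only [if_true] at h3
    rw [if_neg h5] at h3
    norm_num at h3

/-- The standard relator of the closed orientable surface of genus `g`. -/
def surfaceRel (g : ℕ) : FreeGroup (Fin g × Bool) :=
  ((List.finRange g).map
    (fun i => ⁅FreeGroup.of ((i, false) : Fin g × Bool), FreeGroup.of (i, true)⁆)).prod

/-- The fundamental group of the closed orientable surface of genus `g`. -/
abbrev SurfaceGroup (g : ℕ) : Type := PresentedGroup {surfaceRel g}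

/-- Closed orientable surfaces of genus at least two. -/
theorem closed_case (g : ℕ) (hg : 2 ≤ g) : InfDiam (SurfaceGroup g) := by
  obtain ⟨n, rfl⟩ : ∃ n, g = n + 2 := ⟨g - 2, by omega⟩
  let i0 : Fin (n + 2) := 0
  let i1 : Fin (n + 2) := 1
  have h01 : i0 ≠ i1 := by
    intro h
    exact absurd (congrArg Fin.val h) (by simp [i0, i1])
  let b0 : Fin (n + 2) × Bool → ℤ := Pi.single (i0, true) 1
  let b1 : Fin (n + 2) × Bool → ℤ := Pi.single (i1, true) 1
  let p0 : (Fin (n + 2) × Bool → ℤ) → ℤ := fun v =>
    1 * ((if v = 0 then 1 else 0) - (if v = b1 then 1 else 0))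
  let p1 : (Fin (n + 2) × Bool → ℤ) → ℤ := fun v =>
    -1 * ((if v = 0 then 1 else 0) - (if v = b0 then 1 else 0))
  let F : Fin (n + 2) × Bool → W (Fin (n + 2) × Bool) := fun i =>
    ⟨if i = (i0, false) then p0 else if i = (i1, false) then p1 else (fun _ => 0), Pi.single i 1⟩
  have hFf : ∀ i, (F i).f =
      if i = (i0, false) then p0 else if i = (i1, false) then p1 else (fun _ => 0) :=
    fun i => rfl
  have hF0 : (F (i0, false)).f = p0 := by
    rw [hFf, if_pos rfl]
  have hF1 : (F (i1, false)).f = p1 := by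
    rw [hFf, if_neg (by simp [h01.symm]), if_pos rfl]
  have hFo : ∀ i, i ≠ (i0, false) → i ≠ (i1, false) → (F i).f = fun _ => 0 := by
    intro i h0 h1
    rw [hFf, if_neg h0, if_neg h1]
  have hFt : ∀ i, (F (i, true)).f = fun _ => 0 := fun i => hFo _ (by simp) (by simp)
  have hFa : ∀ i, (F i).a = Pi.single i 1 := fun i => rfl
  have hc : ⁅F (i0, false), F (i0, true)⁆ * ⁅F (i1, false), F (i1, true)⁆ = 1 := by
    obtain ⟨h1, h2⟩ := comm_f (F (i0, false)) (F (i0, true)) (hFt _)
    obtain ⟨h3, h4⟩ := comm_f (F (i1, false)) (F (i1, true)) (hFt _)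
    refine W.ext ?_ ?_
    · funext v
      rw [W.mul_f, h1, h2, h4, hF0, hF1, hFa, hFa, sub_zero, W.one_f]
      change (p0 v - p0 (v - b0)) + (p1 v - p1 (v - b1)) = 0
      simp only [p0, p1, sub_eq_iff_eq_add, zero_add]
      rw [add_comm b0 b1]
      ring
    · rw [W.mul_a, h1, h3, W.one_a, add_zero]
  have hrel : ∀ r ∈ ({surfaceRel (n + 2)} : Set (FreeGroup (Fin (n + 2) × Bool))),
      FreeGroup.lift F r = 1 := by
    intro r hr
    rw [Set.mem_singleton_iff.1 hr, surfaceRel, map_list_prod, List.map_map,
      List.finRange_succ, List.finRange_succ]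
    simp only [List.map_cons, List.map_map, List.prod_cons, Function.comp, map_commutatorElement,
      FreeGroup.lift_apply_of]
    rw [← mul_assoc]
    have hrest : (List.map (((FreeGroup.lift F) ∘ fun i : Fin (n + 2) =>
        ⁅FreeGroup.of (i, false), FreeGroup.of (i, true)⁆) ∘ Fin.succ ∘ Fin.succ)
        (List.finRange n)).prod = 1 := by
      apply List.prod_eq_one
      intro y hy
      obtain ⟨j, -, rfl⟩ := List.mem_map.1 hy
      have hj0 : ((j.succ.succ : Fin (n + 2)), false) ≠ (i0, false) := by
        intro h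
        have := congrArg Fin.val (congrArg Prod.fst h)
        simp [i0] at this
      have hj1 : ((j.succ.succ : Fin (n + 2)), false) ≠ (i1, false) := by
        intro h
        have := congrArg Fin.val (congrArg Prod.fst h)
        simp [i1] at this
      obtain ⟨h1, h2⟩ := comm_f (F (j.succ.succ, false)) (F (j.succ.succ, true)) (hFt _)
      change FreeGroup.lift F ⁅FreeGroup.of (j.succ.succ, false),
        FreeGroup.of (j.succ.succ, true)⁆ = 1
      rw [map_commutatorElement, FreeGroup.lift_apply_of, FreeGroup.lift_apply_of]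
      refine W.ext ?_ h1
      funext v
      rw [h2, hFo _ hj0 hj1]
      simp
    rw [hrest, mul_one]
    exact hc
  refine general (PresentedGroup.toGroup hrel) PresentedGroup.of
    (PresentedGroup.closure_range_of _) ?_ ?_ ?_
  · intro i
    rw [PresentedGroup.toGroup.of]
  · intro i
    rw [PresentedGroup.toGroup.of]
    by_cases h : i = (i0, false)
    · rw [h, hF0]
      exact bd_delta2 _ 1 (by norm_num)
    · by_cases h' : i = (i1, false)
      · rw [h', hF1]
        exact bd_delta2 _ (-1) (by norm_num)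
      · rw [hFo i h h']
        exact bd_zero
  · refine ⟨⁅(PresentedGroup.of (i0, false) : SurfaceGroup (n + 2)),
      (PresentedGroup.of (i0, true) : SurfaceGroup (n + 2))⁆, ?_⟩
    rw [map_commutatorElement, PresentedGroup.toGroup.of, PresentedGroup.toGroup.of]
    obtain ⟨h1, h2⟩ := comm_f (F (i0, false)) (F (i0, true)) (hFt _)
    refine ⟨h1, fun h => ?_⟩
    have h3 := h2 0
    rw [h, hF0, hFa] at h3
    change (0 : ℤ) = p0 0 - p0 (0 - b0) at h3
    have hb1 : (0 : Fin (n + 2) × Bool → ℤ) ≠ b1 := by
      intro h6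
      have := congrFun h6 (i1, true)
      simp [b1] at this
    have hb0 : (0 : Fin (n + 2) × Bool → ℤ) - b0 ≠ 0 := by
      intro h6
      have := congrFun h6 (i0, true)
      simp [b0] at this
    have hb01 : (0 : Fin (n + 2) × Bool → ℤ) - b0 ≠ b1 := by
      intro h6
      have := congrFun h6 (i0, true)
      simp [b0, b1, h01] at this
    simp only [p0, if_true] at h3
    rw [if_neg hb1, if_neg hb0, if_neg hb01] at h3
    norm_num at h3

/-- **Theorem.** Every free group of finite rank `r ≥ 2` and every closed orientable surface group of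
genus `g ≥ 2` has a generating set `S` that contains a conjugate of every element outside the
commutator subgroup, such that the quotient by the second derived subgroup has infinite diameter
with respect to `S`. -/
theorem result : (∀ r : ℕ, 2 ≤ r → InfDiam (FreeGroup (Fin r))) ∧
    (∀ g : ℕ, 2 ≤ g → InfDiam (SurfaceGroup g)) :=
  ⟨free_case, closed_case⟩

end Pool.Agent.Results.MP_4b02fd_al.BadGenerators
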